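import Mathlib
import Pool.Agent.H32.CoSob

open Set Filter Topology TopologicalSpace

namespace Pool.Agent.Results.MP_8d849c_gt.ProductFails

/-- Nonempty compact saturated sets. -/
def KS {X : Type} [TopologicalSpace X] (K : Set X) : Prop :=
  K.Nonempty ∧ IsCompact K ∧ K = ⋂₀ {U | IsOpen U ∧ K ⊆ U}

/-- `k`-irreducible sets. -/
def KIrr {X : Type} [TopologicalSpace X] (G : Set X) : Prop :=
  KS G ∧ ∀ K₁ K₂, KS K₁ → KS K₂ → G = K₁ ∪ K₂ → G = K₁ ∨ G = K₂

/-- Co-sober spaces: `T₀`, and each `k`-irreducible set is `↑k = {y | k ∈ cl {y}}`. -/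
def CoSober (X : Type) [TopologicalSpace X] : Prop :=
  T0Space X ∧ ∀ G : Set X, KIrr G → ∃ k, G = {y | k ∈ closure {y}}

open Pool.Agent.H32.CoSob

lemma sat {X : Type} [TopologicalSpace X] [T1Space X] (K : Set X) :
    K = ⋂₀ {U | IsOpen U ∧ K ⊆ U} :=
  (sat_iff K).2 fun x hx y h => by
    rw [closure_singleton] at h
    exact h ▸ hx

theorem result : ∃ (I : Type) (X : I → Type) (_ : ∀ i, TopologicalSpace (X i)),
    (∀ i, CoSober (X i)) ∧ ¬ CoSober (∀ i, X i) := by
  refine ⟨M, fun _ => M, τ, fun p => ?_, fun h => ?_⟩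
  · have := t1 p
    refine ⟨@T1Space.t0Space M (τ p) this, fun G hG => ?_⟩
    obtain ⟨⟨⟨a, ha⟩, hc, -⟩, hG⟩ := hG
    refine ⟨a, ?_⟩
    simp only [@closure_singleton M (τ p), mem_singleton_iff]
    refine Subset.antisymm (fun b hb => by_contra fun hab => ?_) (by rintro _ rfl; exact ha)
    obtain ⟨q, hq, hqp, c, hc', hcq⟩ : ∃ q ∈ G, q ≠ p ∧ ∃ c ∈ G, c ≠ q := by
      by_cases h : a = p
      · exact ⟨b, hb, fun e => hab (h.trans e.symm), a, ha, hab⟩
      · exact ⟨a, ha, h, b, hb, Ne.symm hab⟩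
    rcases hG (G \ {q}) {q} ⟨⟨c, hc', hcq⟩, rem hqp hc ⟨c, hc', hcq⟩, @sat M (τ p) this _⟩
      ⟨singleton_nonempty _, @isCompact_singleton M (τ p) _, @sat M (τ p) this _⟩
      (by simp [hq]) with h | h
    · exact (h ▸ hq : q ∈ G \ {q}).2 rfl
    · exact hcq (h ▸ hc' : c ∈ ({q} : Set M))
  · let t : TopologicalSpace (M → M) := @Pi.topologicalSpace M (fun _ => M) τ
    have t1' : @T1Space (M → M) t := @instT1SpaceForall M (fun _ => M) τ t1
    let d : M → M → M := fun x _ => x
    have hd : @IsInducing M (M → M) τs t d := by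
      refine @IsInducing.mk M (M → M) τs t d ?_
      simp only [t, Pi.topologicalSpace, induced_iInf, induced_compose]
      exact iInf_congr fun p => (induced_id (t := τ p)).symm
    have pre : ∀ K, @IsCompact _ t K → K ⊆ range d → @IsCompact M τs (d ⁻¹' K) := fun K hK hs =>
      @IsInducing.isCompact_preimage' M (M → M) τs t d hd K hK hs
    have key : ∀ K L, @KS _ t K → @KS _ t L → range d = K ∪ L → range d = K ∨ range d = L := by
      intro K L hK hL e
      have s1 : K ⊆ range d := e ▸ subset_union_left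
      have s2 : L ⊆ range d := e ▸ subset_union_right
      refine (irr (pre K hK.2.1 s1) (pre L hL.2.1 s2) ?_).imp (fun h => ?_) fun h => ?_
      · rw [← preimage_union, ← e, preimage_range]
      · exact Subset.antisymm (range_subset_iff.2 (eq_univ_iff_forall.1 h)) s1
      · exact Subset.antisymm (range_subset_iff.2 (eq_univ_iff_forall.1 h)) s2
    obtain ⟨k, hk⟩ := h.2 (range d) ⟨⟨range_nonempty _, by
      rw [← image_univ]
      exact @IsCompact.image M (M → M) τs t _ d cpt_univ (@IsInducing.continuous M _ d t τs hd),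
      @sat _ t t1' _⟩, key⟩
    · simp only [@closure_singleton _ t, mem_singleton_iff] at hk
      have h1 : k = d fun _ => true := (hk ▸ mem_range_self _ : d _ ∈ {y | k = y})
      have h2 : k = d fun _ => false := (hk ▸ mem_range_self _ : d _ ∈ {y | k = y})
      exact absurd (congrFun (congrFun (h1.symm.trans h2) fun _ => true) 0) (by simp [d])

end Pool.Agent.Results.MP_8d849c_gt.ProductFails
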